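import Mathlib
import Pool.Agent.H153R4.Block
set_option autoImplicit false

/-! Definitions for the extension operator of the unit sphere of `ℝ^(k+1)` with `k` independent
dilations of the density. -/

namespace Pool.Agent.W203.SP

open MeasureTheory Set Complex
open scoped ENNReal NNReal FourierTransform RealInnerProductSpace ContDiff
open Pool.Agent.H153R4 (E BS ch ST cube kk dd)

variable {k : ℕ}

/-- bounded measurable functions supported in the closed unit ball -/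
structure DS (M : ℝ) (f : E k → ℂ) : Prop where
  meas : Measurable f
  bd : ∀ z, ‖f z‖ ≤ M
  supp : ∀ z, 1 < ‖z‖ → f z = 0

/-- `exp(2 π i x)` -/
noncomputable def ee (x : ℝ) : ℂ := cexp (((2 * Real.pi * x : ℝ) : ℂ) * I)

/-- the quadratic polynomial `w - ∑ u_j z_j²` -/
def pw (w : ℝ) (u : Fin k → ℝ) (z : E k) : ℝ := w - ∑ j, u j * z j ^ 2

/-- the modulated density on the sphere: amplitude `(1 - ∑ s_j z_j²)^(-m/2)` -/
noncomputable def gs (m : ℕ) (t : ℝ) (s : Fin k → ℝ) (f : E k → ℂ) (z : E k) : ℂ :=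
  ee (t * Real.sqrt (pw 1 s z)) * ((1 / Real.sqrt (pw 1 s z) ^ m : ℝ) : ℂ) * f z

/-- fourth moment over a dyadic set of times -/
noncomputable def DM (m : ℕ) (T : ℝ) (s : Fin k → ℝ) (f : E k → ℂ) : ℝ≥0∞ :=
  ∫⁻ t in ST T, ∫⁻ x, ‖𝓕 (gs m t s f) x‖ₑ ^ 4

/-- `q`-th moment over a set of times -/
noncomputable def NQ (m : ℕ) (q : ℝ) (S : Set ℝ) (s : Fin k → ℝ) (f : E k → ℂ) : ℝ≥0∞ :=
  ∫⁻ t in S, ∫⁻ x, ‖𝓕 (gs m t s f) x‖ₑ ^ q

/-- smooth amplitudes with compact support in `(0,∞)` -/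
def GoodAmp (η : ℝ → ℂ) : Prop :=
  ContDiff ℝ ∞ η ∧ ∃ a b : ℝ, 0 < a ∧ a < b ∧ ∀ p, p ∉ Icc a b → η p = 0

/-- the modulated density with a cut-off amplitude and the additional parameter `w` -/
noncomputable def ge (η : ℝ → ℂ) (t w : ℝ) (u : Fin k → ℝ) (f : E k → ℂ) (z : E k) : ℂ :=
  η (pw w u z) * ee (t * Real.sqrt (pw w u z)) * f z

/-- the kernel of the subordination formula -/
noncomputable def kap (η : ℝ → ℂ) (t r : ℝ) : ℂ := ∫ p, η p * ee (t * Real.sqrt p - r * p)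

/-- the same amplitude in the variable `q = √p` -/
noncomputable def gq (η : ℝ → ℂ) (q : ℝ) : ℂ := if 0 < q then 2 * q * η (q ^ 2) else 0

/-- the constant of the Gaussian integral -/
noncomputable def cr (r : ℝ) : ℂ := (1 / (2 * I * r)) ^ (1 / 2 : ℂ)

/-- the range of the intermediate times -/
def RT (T e : ℝ) : Set ℝ := {r | T ^ (1 - e) ≤ |r| ∧ |r| ≤ T ^ (1 + e)}

/-- the superposition of paraboloid extensions -/
noncomputable def U0 (T e lam w : ℝ) (u : Fin k → ℝ) (f : E k → ℂ) (x : E k) : ℂ :=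
  ∫ r in RT T e, cr r * ee (lam / r + r * w) * 𝓕 (ch (fun j => r * u j) f) x

end Pool.Agent.W203.SP
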