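import Mathlib
import Pool.Agent.W203.SP.Defs
set_option autoImplicit false

/-! The steps. Every step is a closed proposition; `T_X` is to be proved as
`theorem t_X : S_X` or, when it uses others, `theorem t_X (h1 : S_A) (h2 : S_B) : S_X`. -/

namespace Pool.Agent.W203.SP

open MeasureTheory Set Complex Filter
open scoped ENNReal NNReal FourierTransform RealInnerProductSpace ContDiff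
open Pool.Agent.H153R4 (E BS ch ST cube kk dd)

/-! ### A. Planar estimate for the hyperbola -/

/-- A1. Local mean square of an oscillatory integral with expanding phase. -/
def S_OSC : Prop := ∀ (a b κ Λ B : ℝ) (φ : ℝ → ℝ) (g : ℝ → ℂ), a ≤ b → 0 < κ → 0 < Λ →
  Measurable φ → (∀ r ∈ Icc a b, ∀ r' ∈ Icc a b, κ * |r - r'| ≤ |φ r - φ r'|) →
  Measurable g → (∀ r, ‖g r‖ ≤ B) → (∀ r, r ∉ Icc a b → g r = 0) →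
  ∫⁻ l in Icc (-Λ) Λ, ‖∫ r, g r * ee (l * φ r)‖ₑ ^ 2 ≤
    ENNReal.ofReal (Real.exp Real.pi / κ) * ∫⁻ r, ‖g r‖ₑ ^ 2

/-- A2. Fourth power of a one dimensional Fourier transform. -/
def S_FOUR1 : Prop := ∀ (a b B : ℝ) (g : ℝ → ℂ), Measurable g → (∀ r, ‖g r‖ ≤ B) →
  (∀ r, r ∉ Icc a b → g r = 0) →
  ∫⁻ w, ‖∫ r, g r * ee (r * w)‖ₑ ^ 4 =
    ∫⁻ h, ‖∫ r, g (r + h) * (starRingEnd ℂ) (g r)‖ₑ ^ 2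

/-- A3. The `L^4` estimate for the curve `(1/r, r)`, `T^(1-e) ≤ r ≤ T^(1+e)`. -/
def S_HYP1 : Prop := ∀ e : ℝ, 0 < e → e < 1 → ∃ C : ℝ, 0 < C ∧ ∀ T : ℝ, 1 ≤ T →
  ∀ (B : ℝ) (g : ℝ → ℂ), Measurable g → (∀ r, ‖g r‖ ≤ B) →
  (∀ r, r ∉ Icc (T ^ (1 - e)) (T ^ (1 + e)) → g r = 0) →
  ∫⁻ l in Icc (-(4 * T ^ 2)) (4 * T ^ 2), ∫⁻ w, ‖∫ r, g r * ee (l / r + r * w)‖ₑ ^ 4 ≤
    ENNReal.ofReal (C * T ^ (3 + 6 * e)) * ∫⁻ r, ‖g r‖ₑ ^ 4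

/-- A4. The same for both signs of `r`. -/
def S_HYP : Prop := ∀ e : ℝ, 0 < e → e < 1 → ∃ C : ℝ, 0 < C ∧ ∀ T : ℝ, 1 ≤ T →
  ∀ (B : ℝ) (g : ℝ → ℂ), Measurable g → (∀ r, ‖g r‖ ≤ B) →
  (∀ r, r ∉ RT T e → g r = 0) →
  ∫⁻ l in Icc (-(4 * T ^ 2)) (4 * T ^ 2), ∫⁻ w, ‖∫ r, g r * ee (l / r + r * w)‖ₑ ^ 4 ≤
    ENNReal.ofReal (C * T ^ (3 + 6 * e)) * ∫⁻ r, ‖g r‖ₑ ^ 4

/-! ### B. The paraboloid with `k` independent parameters at one time -/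

/-- B1. -/
def S_PAR : Prop := ∀ (k : ℕ) (β L : ℝ), 0 < β → β ≤ 1 → 1 ≤ L → ∃ C : ℝ≥0∞, C < ⊤ ∧
  ∀ (M : ℝ) (g : E k → ℂ), BS M g → ∀ r : ℝ, r ≠ 0 →
    ∫⁻ u in Icc (fun _ : Fin k => -L) (fun _ => L), ∫⁻ x, ‖𝓕 (ch (fun j => r * u j) g) x‖ₑ ^ 4 ≤
      C * ENNReal.ofReal (|r| ^ (-(k * (1 - β)))) * ∫⁻ z, ‖g z‖ₑ ^ 4

/-- B2. Joint measurability. -/
def S_MV : Prop := ∀ (k : ℕ) (f : E k → ℂ), Measurable f →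
  Measurable fun q : (ℝ × (Fin k → ℝ)) × E k => 𝓕 (ch (fun j => q.1.1 * q.1.2 j) f) q.2

/-- B3. Joint measurability. -/
def S_MU : Prop := ∀ (k : ℕ) (T e : ℝ) (f : E k → ℂ), Measurable f →
  Measurable fun q : ((ℝ × ℝ) × (Fin k → ℝ)) × E k => U0 T e q.1.1.1 q.1.1.2 q.1.2 f q.2

/-- B4. The fourth moment of `U0`. -/
def S_M0 : Prop := ∀ (k : ℕ) (e : ℝ), 0 < e → e < 1 → ∃ C : ℝ≥0∞, C < ⊤ ∧ ∀ T : ℝ, 1 ≤ T →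
  ∀ (M : ℝ) (f : E k → ℂ), BS M f →
    ∫⁻ l in Icc (-(4 * T ^ 2)) (4 * T ^ 2), ∫⁻ w,
      ∫⁻ u in Icc (fun _ : Fin k => (-2 : ℝ)) (fun _ => 2), ∫⁻ x, ‖U0 T e l w u f x‖ₑ ^ 4 ≤
        C * ENNReal.ofReal (T ^ (2 - k + (13 + 2 * k) * e)) * ∫⁻ z, ‖f z‖ₑ ^ 4

/-! ### C. The subordination formula -/

/-- C1. Repeated integration by parts in `p`. -/
def S_K2 : Prop := ∀ η : ℝ → ℂ, GoodAmp η → ∀ N : ℕ, ∃ C : ℝ, 0 ≤ C ∧ ∀ t r : ℝ, r ≠ 0 →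
  ‖kap η t r‖ ≤ C * ((1 + |t|) / |r|) ^ N

/-- C2. Repeated integration by parts in `q`. -/
def S_K3 : Prop := ∀ g : ℝ → ℂ, ContDiff ℝ ∞ g → HasCompactSupport g → ∀ N : ℕ, ∃ C : ℝ, 0 ≤ C ∧
  ∀ t r : ℝ, t ≠ 0 → ‖∫ q, g q * ee (t * q - r * q ^ 2)‖ ≤ C * ((1 + |r|) / |t|) ^ N

/-- C3. The change of variables `p = q²`. -/
def S_K5 : Prop := ∀ η : ℝ → ℂ, GoodAmp η → (ContDiff ℝ ∞ (gq η) ∧ HasCompactSupport (gq η)) ∧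
  ∀ t r : ℝ, kap η t r = ∫ q, gq η q * ee (t * q - r * q ^ 2)

/-- C4. Fourier inversion. -/
def S_K1 : Prop := ∀ η : ℝ → ℂ, GoodAmp η → ∀ t : ℝ, Continuous (kap η t) ∧
  Integrable (kap η t) ∧ ∀ p : ℝ, ∫ r, kap η t r * ee (r * p) = η p * ee (t * Real.sqrt p)

/-- C5. The Gaussian integral. -/
def S_K6 : Prop := ∀ g : ℝ → ℂ, Continuous g → Integrable g → Integrable (𝓕 g) →
  ∀ t r : ℝ, r ≠ 0 →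
    ∫ q, g q * ee (t * q - r * q ^ 2) = cr r * ∫ z, 𝓕 g z * ee ((t + z) ^ 2 / (4 * r))

/-- C6. Size of the constant. -/
def S_CR : Prop := Measurable cr ∧ ∀ r : ℝ, r ≠ 0 → ‖cr r‖ ^ 2 = 1 / (2 * |r|)

/-- C7. Decay of the Fourier transform. -/
def S_K7 : Prop := ∀ g : ℝ → ℂ, ContDiff ℝ ∞ g → HasCompactSupport g → Continuous (𝓕 g) ∧
  Integrable (𝓕 g) ∧ ∀ N : ℕ, ∃ C : ℝ, 0 ≤ C ∧ ∀ z : ℝ, ‖𝓕 g z‖ ≤ C * (1 + |z|) ^ (-(N : ℝ))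

/-- C8. The decomposition. -/
def S_SUB : Prop := ∀ η : ℝ → ℂ, GoodAmp η → ∃ G : ℝ → ℂ, Continuous G ∧ Integrable G ∧
  ∀ e : ℝ, 0 < e → e < 1 → ∀ N : ℕ, ∃ C : ℝ, 0 ≤ C ∧
  ∀ T : ℝ, 1 ≤ T → ∀ t : ℝ, T / 2 ≤ t → t ≤ 2 * T → ∃ Er : ℝ → ℂ, Measurable Er ∧
    (∀ p, ‖Er p‖ ≤ C * T ^ (-(N : ℝ))) ∧
    ∀ p, η p * ee (t * Real.sqrt p) = (∫ z in Icc (-(T / 4)) (T / 4), G z *
      ∫ r in RT T e, cr r * ee ((t + z) ^ 2 / (4 * r) + r * p)) + Er p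

/-! ### D. The fourth moment -/

/-- D1. -/
def S_TAIL : Prop := ∀ k : ℕ, ∃ C : ℝ≥0∞, C < ⊤ ∧ ∀ (M δ : ℝ) (f : E k → ℂ) (ρ : E k → ℂ),
  BS M f → 0 ≤ δ → Measurable ρ → (∀ z, ‖ρ z‖ ≤ δ) →
    ∫⁻ x, ‖𝓕 (fun z => ρ z * f z) x‖ₑ ^ 4 ≤ C * ENNReal.ofReal (δ ^ 4) * ∫⁻ z, ‖f z‖ₑ ^ 4

/-- D2. Interchange of the integrals. -/
def S_FUB : Prop := ∀ (k : ℕ) (M T e t w B : ℝ) (u : Fin k → ℝ) (f : E k → ℂ) (η G Er : ℝ → ℂ),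
  BS M f → 1 ≤ T → 0 < e → e < 1 → GoodAmp η → Continuous G → Integrable G → Measurable Er →
  (∀ p, ‖Er p‖ ≤ B) →
  (∀ p, η p * ee (t * Real.sqrt p) = (∫ z in Icc (-(T / 4)) (T / 4), G z *
      ∫ r in RT T e, cr r * ee ((t + z) ^ 2 / (4 * r) + r * p)) + Er p) →
  ∀ x, 𝓕 (ge η t w u f) x =
    (∫ z in Icc (-(T / 4)) (T / 4), G z * U0 T e ((t + z) ^ 2 / 4) w u f x) +
      𝓕 (fun z => Er (pw w u z) * f z) x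

/-- D3. Joint measurability. -/
def S_MG : Prop := ∀ (k m : ℕ) (η : ℝ → ℂ) (f : E k → ℂ), Measurable η → Measurable f →
  (Measurable fun q : ((ℝ × ℝ) × (Fin k → ℝ)) × E k => 𝓕 (ge η q.1.1.1 q.1.1.2 q.1.2 f) q.2) ∧
  Measurable fun q : (ℝ × (Fin k → ℝ)) × E k => 𝓕 (gs m q.1.1 q.1.2 f) q.2

/-- D4. The averaged fourth moment with a cut-off amplitude. -/
def S_ME : Prop := ∀ (k : ℕ) (η : ℝ → ℂ), GoodAmp η → ∀ e : ℝ, 0 < e → ∃ C : ℝ≥0∞, C < ⊤ ∧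
  ∀ T : ℝ, 1 ≤ T → ∀ (M : ℝ) (f : E k → ℂ), BS M f →
    ∫⁻ t in Icc (T / 2) (2 * T), ∫⁻ w in Icc (1 : ℝ) 2,
      ∫⁻ u in Icc (fun _ : Fin k => (0 : ℝ)) (fun _ => 2), ∫⁻ x, ‖𝓕 (ge η t w u f) x‖ₑ ^ 4 ≤
        C * ENNReal.ofReal (T ^ (1 - k + e)) * ∫⁻ z, ‖f z‖ₑ ^ 4

/-- D5. Existence of the amplitude. -/
def S_AMP : Prop := ∀ (m : ℕ) (c : ℝ), 0 < c → ∃ η : ℝ → ℂ, GoodAmp η ∧
  ∀ p ∈ Icc c 2, η p = ((1 / Real.sqrt p ^ m : ℝ) : ℂ)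

/-- D6. The averaged fourth moment on the sphere. -/
def S_M4 : Prop := ∀ (k m : ℕ) (b e : ℝ), 0 ≤ b → b < 1 → 0 < e → ∃ C : ℝ≥0∞, C < ⊤ ∧
  ∀ T : ℝ, 1 ≤ T → ∀ (M : ℝ) (f : E k → ℂ), DS M f →
    ∫⁻ s in Icc (fun _ : Fin k => (0 : ℝ)) (fun _ => b), DM m T s f ≤
      C * ENNReal.ofReal (T ^ (1 - k + e)) * ∫⁻ z, ‖f z‖ₑ ^ 4

/-! ### E. All exponents -/

/-- E1. The averaged estimate. -/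
def S_LQ : Prop := ∀ (k : ℕ) (q b : ℝ), 2 ≤ k → 2 + 2 / (k : ℝ) < q → 0 ≤ b → b < 1 →
  ∃ C : ℝ≥0∞, 0 < C ∧ C < ⊤ ∧ ∀ f : E k → ℂ, Measurable f → (∀ z, 1 < ‖z‖ → f z = 0) →
    ∫⁻ s in Icc (fun _ : Fin k => (0 : ℝ)) (fun _ => b), NQ 1 q univ s f ≤
      C * ∫⁻ z, ‖f z‖ₑ ^ q

/-- E2. The exceptional parameters. -/
def S_EXC : Prop := ∀ (k : ℕ) (q : ℝ), 2 ≤ k → 2 < q → ∀ f : E k → ℂ, Measurable f →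
  (∀ z, 1 < ‖z‖ → f z = 0) → ∫⁻ z, ‖f z‖ₑ ^ q ≠ ⊤ →
  dimH {s : Fin k → ℝ | (∀ j, 0 < s j ∧ s j < 1) ∧ NQ 1 q univ s f = ⊤} ≤
    ENNReal.ofReal (1 + max 0 ((4 - q) / (q - 2)))

end Pool.Agent.W203.SP
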