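import Mathlib
import Pool.Agent.W203.SP.Stm
set_option autoImplicit false

/-! From the graph to the sphere of `ℝ^(k+1)`. -/

namespace Pool.Agent.W203.SP

open MeasureTheory Set Complex Filter Metric
open scoped ENNReal NNReal FourierTransform RealInnerProductSpace ContDiff
open Pool.Agent.H153R4 (E BS ch ST cube kk dd)

variable {k : ℕ}

/-- the surface measure of the unit sphere, as a measure on the space -/
noncomputable def sg (k : ℕ) : Measure (E k) :=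
  (volume : Measure (E k)).toSphere.map fun x : sphere (0 : E k) 1 => (x : E k)

/-- the graph map of the upper half sphere -/
noncomputable def up (y : E k) : E (k + 1) :=
  WithLp.toLp 2 (Fin.snoc (α := fun _ : Fin (k + 1) => ℝ) (fun j => y j)
    (Real.sqrt (1 - ‖y‖ ^ 2)))

/-- the dilated density on the sphere -/
noncomputable def dens (l : Fin k → ℝ) (f : E k → ℂ) (x : E (k + 1)) : ℂ :=
  if 0 < x (Fin.last k) ∧ ∑ j : Fin k, (x j.castSucc / l j) ^ 2 < 1 then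
    f (WithLp.toLp 2 fun j => x j.castSucc / l j) else 0

/-- the Fourier transform of the dilated density -/
noncomputable def FD (l : Fin k → ℝ) (f : E k → ℂ) (ξ : E (k + 1)) : ℂ :=
  ∫ x, ee (-⟪x, ξ⟫) * dens l f x ∂(sg (k + 1))

/-- restriction to the open unit ball -/
noncomputable def fb (f : E k → ℂ) : E k → ℂ := (ball (0 : E k) 1).indicator f

/-- F1. Integration over the open upper half sphere. -/
def S_SPH : Prop := ∀ (k : ℕ) (F : E (k + 1) → ℝ≥0∞), Measurable F →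
  ∫⁻ x in {x : E (k + 1) | 0 < x (Fin.last k)}, F x ∂(sg (k + 1)) =
    ∫⁻ y in ball (0 : E k) 1, ENNReal.ofReal (1 / Real.sqrt (1 - ‖y‖ ^ 2)) * F (up y)

/-- F2. The Fourier transform of the dilated density. -/
def S_FD : Prop := ∀ (k : ℕ) (l : Fin k → ℝ), (∀ j, 0 < l j ∧ l j < 1) →
  ∀ f : E k → ℂ, Measurable f → ∀ ξ : E (k + 1), FD l f ξ = ((∏ j, l j : ℝ) : ℂ) *
    𝓕 (gs 1 (-(ξ (Fin.last k))) (fun j => l j ^ 2) (fb f))
      (WithLp.toLp 2 fun j => l j * ξ j.castSucc)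

/-- F3. Its `L^q` norm. -/
def S_FDL : Prop := ∀ (k : ℕ) (l : Fin k → ℝ), (∀ j, 0 < l j ∧ l j < 1) →
  ∀ f : E k → ℂ, Measurable f → ∀ q : ℝ, 0 ≤ q →
    ∫⁻ ξ, ‖FD l f ξ‖ₑ ^ q = ENNReal.ofReal ((∏ j, l j) ^ q) * ENNReal.ofReal ((∏ j, l j)⁻¹) *
      NQ 1 q univ (fun j => l j ^ 2) (fb f)

/-- F4. The substitution `s_j = l_j²`. -/
def S_SUBST : Prop := ∀ (k : ℕ) (a b : ℝ), 0 < a → a ≤ b →
  ∀ G : (Fin k → ℝ) → ℝ≥0∞, Measurable G →
    ∫⁻ l in Icc (fun _ => a) (fun _ => b), G (fun j => l j ^ 2) ≤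
      ENNReal.ofReal (((2 * a) ^ k)⁻¹) * ∫⁻ s in Icc (fun _ => a ^ 2) (fun _ => b ^ 2), G s

/-- F5. Measurability in the parameters. -/
def S_NQM : Prop := ∀ (k m : ℕ) (q : ℝ) (S : Set ℝ) (f : E k → ℂ), Measurable f →
  Measurable fun s : Fin k → ℝ => NQ m q S s f

/-- F6. The averaged estimate on the sphere. -/
def S_AVG : Prop := ∀ (k : ℕ) (p a b : ℝ), 2 ≤ k → 2 + 2 / (k : ℝ) < p → 0 < a → a ≤ b → b < 1 →
  ∃ C : ℝ≥0∞, C < ⊤ ∧ ∀ f : E k → ℂ, Measurable f →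
    ∫⁻ l in Icc (fun _ : Fin k => a) (fun _ => b), ∫⁻ ξ, ‖FD l f ξ‖ₑ ^ p ≤
      C * ∫⁻ z in ball (0 : E k) 1, ‖f z‖ₑ ^ p

end Pool.Agent.W203.SP
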