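import Mathlib
import Pool.Agent.W203.SP.Stm2
set_option autoImplicit false

/-! Consequences of the averaged estimate. -/

namespace Pool.Agent.W203.SP

open MeasureTheory Set Complex Filter Metric
open scoped ENNReal NNReal FourierTransform RealInnerProductSpace ContDiff
open Pool.Agent.H153R4 (E BS ch ST cube kk dd)

variable {k : ℕ}

lemma sg_fin (n : ℕ) : IsFiniteMeasure (sg n) := by
  unfold sg
  infer_instance

lemma dens_meas2 {f : E k → ℂ} (hf : Measurable f) :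
    Measurable fun q : (Fin k → ℝ) × E (k + 1) => dens q.1 f q.2 := by
  unfold dens
  have h0 : Measurable fun q : (Fin k → ℝ) × E (k + 1) => q.2 (Fin.last k) := by fun_prop
  have hj : ∀ j : Fin k, Measurable fun q : (Fin k → ℝ) × E (k + 1) => q.2 j.castSucc / q.1 j := by
    intro j
    have a1 : Measurable fun q : (Fin k → ℝ) × E (k + 1) => q.2 j.castSucc := by fun_prop
    have a2 : Measurable fun q : (Fin k → ℝ) × E (k + 1) => q.1 j := by fun_prop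
    exact a1.div a2
  have h1 : Measurable fun q : (Fin k → ℝ) × E (k + 1) =>
      ∑ j : Fin k, (q.2 j.castSucc / q.1 j) ^ 2 :=
    Finset.measurable_sum _ fun j _ => (hj j).pow_const 2
  have h2 : Measurable fun q : (Fin k → ℝ) × E (k + 1) =>
      (WithLp.toLp 2 fun j => q.2 j.castSucc / q.1 j : E k) := by
    apply (WithLp.measurable_toLp 2 _).comp
    rw [measurable_pi_iff]
    exact hj
  exact Measurable.ite ((measurableSet_lt measurable_const h0).inter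
    (measurableSet_lt h1 measurable_const)) (hf.comp h2) measurable_const

lemma FD_meas2 {f : E k → ℂ} (hf : Measurable f) :
    Measurable fun q : (Fin k → ℝ) × E (k + 1) => FD q.1 f q.2 := by
  have := sg_fin (k + 1)
  unfold FD
  have h1 : Measurable fun r : ((Fin k → ℝ) × E (k + 1)) × E (k + 1) =>
      ee (-⟪r.2, r.1.2⟫) * dens r.1.1 f r.2 := by
    apply Measurable.mul
    · unfold ee
      fun_prop
    · exact (dens_meas2 hf).comp (f := fun r : ((Fin k → ℝ) × E (k + 1)) × E (k + 1) =>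
        (r.1.1, r.2)) (by fun_prop)
  exact (h1.stronglyMeasurable.integral_prod_right' (ν := sg (k + 1))).measurable

lemma FD_meas (l : Fin k → ℝ) {f : E k → ℂ} (hf : Measurable f) : Measurable (FD l f) :=
  (FD_meas2 hf).comp (f := fun ξ => (l, ξ)) (by fun_prop)

lemma FDq_meas {f : E k → ℂ} (hf : Measurable f) (p : ℝ) :
    Measurable fun l : Fin k → ℝ => ∫⁻ ξ, ‖FD l f ξ‖ₑ ^ p :=
  ((FD_meas2 hf).enorm.pow_const p).lintegral_prod_right'

lemma ee_norm (x : ℝ) : ‖ee x‖ = 1 := by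
  unfold ee
  exact Complex.norm_exp_ofReal_mul_I _

lemma FD_bd (l : Fin k → ℝ) {f : E k → ℂ} {M : ℝ} (hM : ∀ z, ‖f z‖ ≤ M) (ξ : E (k + 1)) :
    ‖FD l f ξ‖ ≤ M * (sg (k + 1)).real univ := by
  have := sg_fin (k + 1)
  have hM0 : 0 ≤ M := (norm_nonneg _).trans (hM 0)
  unfold FD
  refine norm_integral_le_of_norm_le_const (ae_of_all _ fun x => ?_)
  rw [norm_mul, ee_norm, one_mul]
  unfold dens
  split_ifs
  · exact hM _
  · rw [norm_zero]
    exact hM0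

lemma FD_mono (l : Fin k → ℝ) {f : E k → ℂ} {M : ℝ} (hM : ∀ z, ‖f z‖ ≤ M) {p q : ℝ} (hp : 0 ≤ p)
    (hpq : p ≤ q) (hf : ∫⁻ ξ, ‖FD l f ξ‖ₑ ^ p < ⊤) : ∫⁻ ξ, ‖FD l f ξ‖ₑ ^ q < ⊤ := by
  set B := M * (sg (k + 1)).real univ with hB
  have h1 : ∀ ξ, ‖FD l f ξ‖ₑ ^ q ≤ ENNReal.ofReal B ^ (q - p) * ‖FD l f ξ‖ₑ ^ p := by
    intro ξ
    have h2 : ‖FD l f ξ‖ₑ ≤ ENNReal.ofReal B := by
      rw [← ofReal_norm]
      exact ENNReal.ofReal_le_ofReal (FD_bd l hM ξ)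
    have h3 : ‖FD l f ξ‖ₑ ^ q = ‖FD l f ξ‖ₑ ^ (q - p) * ‖FD l f ξ‖ₑ ^ p := by
      rw [← ENNReal.rpow_add_of_nonneg _ _ (by linarith) hp]
      congr 1
      ring
    rw [h3]
    exact mul_le_mul' (ENNReal.rpow_le_rpow h2 (by linarith)) le_rfl
  refine lt_of_le_of_lt (lintegral_mono h1) ?_
  rw [lintegral_const_mul' _ _ (ENNReal.rpow_ne_top_of_nonneg (by linarith) ENNReal.ofReal_ne_top)]
  exact ENNReal.mul_lt_top (ENNReal.rpow_ne_top_of_nonneg (by linarith)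
    ENNReal.ofReal_ne_top).lt_top hf

lemma FD_memLp (l : Fin k → ℝ) {f : E k → ℂ} (hf : Measurable f) {p : ℝ} (hp : 0 < p)
    (h : ∫⁻ ξ, ‖FD l f ξ‖ₑ ^ p < ⊤) : MemLp (FD l f) (ENNReal.ofReal p) volume := by
  refine ⟨(FD_meas l hf).aestronglyMeasurable, ?_⟩
  rw [eLpNorm_lt_top_iff_lintegral_rpow_enorm_lt_top (ENNReal.ofReal_pos.2 hp).ne'
    ENNReal.ofReal_ne_top, ENNReal.toReal_ofReal hp.le]
  exact h

/-- almost every dilate -/
theorem ae_fin (h : S_AVG) (hk : 2 ≤ k) {p : ℝ} (hp : 2 + 2 / (k : ℝ) < p) {f : E k → ℂ}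
    (hf : Measurable f) (hfin : ∫⁻ z in ball (0 : E k) 1, ‖f z‖ₑ ^ p ≠ ⊤) :
    ∀ᵐ l : Fin k → ℝ, (∀ j, 0 < l j ∧ l j < 1) → ∫⁻ ξ, ‖FD l f ξ‖ₑ ^ p < ⊤ := by
  have key : ∀ n : ℕ, ∀ᵐ l : Fin k → ℝ,
      l ∈ Icc (fun _ : Fin k => 1 / ((n : ℝ) + 3)) (fun _ => 1 - 1 / ((n : ℝ) + 3)) →
        ∫⁻ ξ, ‖FD l f ξ‖ₑ ^ p < ⊤ := by
    intro n
    have hn : (0 : ℝ) < (n : ℝ) + 3 := by positivity
    have h1 : 1 / ((n : ℝ) + 3) ≤ 1 / 3 := by
      apply one_div_le_one_div_of_le (by norm_num)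
      have := Nat.cast_nonneg (α := ℝ) n
      linarith
    have h0 : 0 < 1 / ((n : ℝ) + 3) := by positivity
    obtain ⟨C, hC, hA⟩ := h k p (1 / ((n : ℝ) + 3)) (1 - 1 / ((n : ℝ) + 3)) hk hp h0
      (by linarith) (by linarith)
    have h2 := hA f hf
    have h3 : ∫⁻ l in Icc (fun _ : Fin k => 1 / ((n : ℝ) + 3)) (fun _ => 1 - 1 / ((n : ℝ) + 3)),
        ∫⁻ ξ, ‖FD l f ξ‖ₑ ^ p ≠ ⊤ :=
      (lt_of_le_of_lt h2 (ENNReal.mul_lt_top hC hfin.lt_top)).ne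
    have h4 := ae_lt_top (FDq_meas hf p) h3
    rwa [ae_restrict_iff' measurableSet_Icc] at h4
  filter_upwards [ae_all_iff.2 key] with l hl hpos
  have hex : ∀ j : Fin k, ∃ N : ℕ, ∀ n : ℕ, N ≤ n → 1 / ((n : ℝ) + 3) ≤ l j ∧
      l j ≤ 1 - 1 / ((n : ℝ) + 3) := by
    intro j
    obtain ⟨h1, h2⟩ := hpos j
    obtain ⟨N, hN⟩ := exists_nat_gt (max (1 / l j) (1 / (1 - l j)))
    refine ⟨N, fun n hn => ?_⟩
    have hn' : (N : ℝ) ≤ n := by exact_mod_cast hn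
    have a1 : 1 / l j < n + 3 := by
      have := le_max_left (1 / l j) (1 / (1 - l j))
      linarith
    have a2 : 1 / (1 - l j) < n + 3 := by
      have := le_max_right (1 / l j) (1 / (1 - l j))
      linarith
    have hn0 : (0 : ℝ) < (n : ℝ) + 3 := by positivity
    have h2' : 0 < 1 - l j := by linarith
    rw [div_lt_iff₀ h1] at a1
    rw [div_lt_iff₀ h2'] at a2
    constructor
    · rw [div_le_iff₀ hn0]
      linarith
    · have : 1 / ((n : ℝ) + 3) ≤ 1 - l j := by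
        rw [div_le_iff₀ hn0]
        linarith
      linarith
  choose N hN using hex
  apply hl (Finset.univ.sup N)
  constructor
  · intro j
    exact (hN j _ (Finset.le_sup (f := N) (Finset.mem_univ j))).1
  · intro j
    exact (hN j _ (Finset.le_sup (f := N) (Finset.mem_univ j))).2

lemma fin_of_bd {f : E k → ℂ} {M : ℝ} (hM : ∀ z, ‖f z‖ ≤ M) {p : ℝ} (hp : 0 ≤ p) :
    ∫⁻ z in ball (0 : E k) 1, ‖f z‖ₑ ^ p ≠ ⊤ := by
  have h1 : ∫⁻ z in ball (0 : E k) 1, ‖f z‖ₑ ^ p ≤ ∫⁻ z in ball (0 : E k) 1,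
      ENNReal.ofReal M ^ p := by
    apply lintegral_mono
    intro z
    apply ENNReal.rpow_le_rpow _ hp
    rw [← ofReal_norm]
    exact ENNReal.ofReal_le_ofReal (hM z)
  refine ne_top_of_le_ne_top ?_ h1
  rw [lintegral_const]
  refine ENNReal.mul_ne_top (ENNReal.rpow_ne_top_of_nonneg hp ENNReal.ofReal_ne_top) ?_
  rw [Measure.restrict_apply_univ]
  exact measure_ball_lt_top.ne

/-- all exponents at the same time -/
theorem ae_all (h : S_AVG) (hk : 2 ≤ k) {M : ℝ} {f : E k → ℂ} (hf : Measurable f)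
    (hM : ∀ z, ‖f z‖ ≤ M) : ∀ᵐ l : Fin k → ℝ, (∀ j, 0 < l j ∧ l j < 1) →
      ∀ p : ℝ, 2 + 2 / (k : ℝ) < p → ∫⁻ ξ, ‖FD l f ξ‖ₑ ^ p < ⊤ := by
  have hk0 : (0 : ℝ) < 2 / (k : ℝ) := by
    have : (0 : ℝ) < k := by
      have : 0 < k := by omega
      exact_mod_cast this
    positivity
  have key : ∀ n : ℕ, ∀ᵐ l : Fin k → ℝ, (∀ j, 0 < l j ∧ l j < 1) →
      ∫⁻ ξ, ‖FD l f ξ‖ₑ ^ (2 + 2 / (k : ℝ) + 1 / ((n : ℝ) + 1)) < ⊤ := by
    intro n
    have hn : (0 : ℝ) < 1 / ((n : ℝ) + 1) := by positivity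
    exact ae_fin h hk (by linarith) hf (fin_of_bd hM (by positivity))
  filter_upwards [ae_all_iff.2 key] with l hl hpos p hp
  obtain ⟨n, hn⟩ := exists_nat_gt (1 / (p - (2 + 2 / (k : ℝ))))
  have hd : 0 < p - (2 + 2 / (k : ℝ)) := by linarith
  refine FD_mono l hM ?_ ?_ (hl n hpos)
  · positivity
  · have : 1 / ((n : ℝ) + 1) ≤ p - (2 + 2 / (k : ℝ)) := by
      rw [div_lt_iff₀ hd] at hn
      rw [div_le_iff₀ (by positivity)]
      nlinarith
    linarith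

end Pool.Agent.W203.SP
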