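import Mathlib
import Pool.Agent.W203.SP.Final
import Pool.Agent.W85.SP.OSC
import Pool.Agent.W305.SP.FOUR1
import Pool.Agent.W135.SP.HYP1
import Pool.Agent.W924.SP.HYP
import Pool.Agent.W479.SP.PAR
import Pool.Agent.W557.SP.MV
import Pool.Agent.W293.SP.MU
import Pool.Agent.W293.SP.MG
import Pool.Agent.W880.SP.M0
import Pool.Agent.W880.SP.K2
import Pool.Agent.W214.SP.K3
import Pool.Agent.W741.SP.K5
import Pool.Agent.W290.SP.K6
import Pool.Agent.W885.SP.CR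
import Pool.Agent.W748.SP.K7
import Pool.Agent.W148.SP.SUB
import Pool.Agent.W589.SP.TAIL
import Pool.Agent.W935.SP.FUB
import Pool.Agent.W7.SP.ME
import Pool.Agent.W377.SP.AMP
import Pool.Agent.W554.SP.M4
import Pool.Agent.W612.SP.SPH
import Pool.Agent.W933.SP.FD
import Pool.Agent.W414.SP.FDL
import Pool.Agent.W334.SP.SUBST
import Pool.Agent.W319.SP.NQM
import Pool.Agent.W883.SP.AVG
import Pool.Agent.W777.SP.LQ
set_option autoImplicit false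

/-! Assembly of the averaged extension estimate. -/

namespace Pool.Agent.W203.SP

theorem a_HYP : S_HYP :=
  Pool.Agent.W924.SP.t_HYP (Pool.Agent.W135.SP.HYP1.t_HYP1 Pool.Agent.W85.SP.t_OSC
    Pool.Agent.W305.SP.t_FOUR1)

theorem a_CR : S_CR := Pool.Agent.W885.SP.t_CR
theorem a_MV : S_MV := Pool.Agent.W557.SP.t_MV
theorem a_MG : S_MG := Pool.Agent.W293.SP.t_MG
theorem a_MU : S_MU := Pool.Agent.W293.SP.t_MU a_MV a_CR

theorem a_M0 : S_M0 :=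
  Pool.Agent.W880.SP.t_M0 a_HYP Pool.Agent.W479.SP.t_PAR a_MV a_MU a_CR

theorem a_SUB0 (k1 : S_K1) : S_SUB :=
  Pool.Agent.W148.SP.t_SUB k1 Pool.Agent.W880.SP.t_K2 Pool.Agent.W214.SP.t_K3
    Pool.Agent.W741.SP.t_K5 Pool.Agent.W290.SP.t_K6 Pool.Agent.W748.SP.t_K7 a_CR

theorem a_ME0 (k1 : S_K1) : S_ME :=
  Pool.Agent.W7.SP.t_ME (a_SUB0 k1) a_M0 Pool.Agent.W589.SP.t_TAIL Pool.Agent.W935.SP.t_FUB a_MU

theorem a_M40 (k1 : S_K1) : S_M4 :=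
  Pool.Agent.W554.SP.t_M4 (a_ME0 k1) Pool.Agent.W377.SP.t_AMP a_MG

theorem a_LQ0 (k1 : S_K1) : S_LQ :=
  Pool.Agent.W777.SP.t_LQ (a_M40 k1) a_MG

theorem a_FDL : S_FDL :=
  Pool.Agent.W203.SP.t_FDL (Pool.Agent.W933.SP.t_FD Pool.Agent.W612.SP.t_SPH) a_MG

theorem a_AVG0 (k1 : S_K1) : S_AVG :=
  Pool.Agent.W883.SP.t_AVG (a_LQ0 k1) a_FDL Pool.Agent.W334.SP.t_SUBST
    (Pool.Agent.W319.SP.t_NQM a_MG)

end Pool.Agent.W203.SP
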