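import Mathlib
import Pool.Agent.W203.SP.All0
import Pool.Agent.W584.SP.K1
set_option autoImplicit false

/-! The averaged extension estimate. -/

namespace Pool.Agent.W203.SP

theorem a_M4 : S_M4 := a_M40 Pool.Agent.W584.SP.t_K1

theorem a_LQ : S_LQ := a_LQ0 Pool.Agent.W584.SP.t_K1

theorem a_AVG : S_AVG := a_AVG0 Pool.Agent.W584.SP.t_K1

end Pool.Agent.W203.SP
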